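import Mathlib
import Pool.Agent.H.MP_57cfa6_lc.A

namespace Pool.Agent.Results.MP_57cfa6_lc.Counter

open Pool.Agent.H.MP_57cfa6_lc

theorem result : Nonempty LCC ∧ ∃ (L : Sig) (φ : Form L []), ¬ Prf L [] [] φ ∧
    ∀ (E : LCC) (M : Str L), ∃ n, Nonempty ((φ.interp E M).left.obj n) :=
  ⟨lcc, L0, phi, unprov, fun E M => lem E M _⟩

end Pool.Agent.Results.MP_57cfa6_lc.Counter
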